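import Pool.Agent.Helper59.BKMain

namespace Pool.Agent.Results.MP_7e1e73_al.BettiInequality

open Pool.Agent.Helper59.BK

universe u

/-- Every Bloch-Kato Lie algebra `L` of finite cohomological dimension `n` over a field of
characteristic different from `2` satisfies `(n - 1) b_1(L)^2 - 2 n b_2(L) ≥ 0`. -/
theorem result {k : Type u} [Field k] (h2 : ringChar k ≠ 2) {L : Type u} [LieRing L]
    [LieAlgebra k L] (𝓛 : ℕ → Submodule k L) (hgr : IsGradedLie 𝓛) (hBK : IsBlochKato 𝓛)
    (n : ℕ) (hcd : cohomologicalDimension k L = n) :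
    0 ≤ ((n : ℤ) - 1) * (betti k L 1 : ℤ) ^ 2 - 2 * (n : ℤ) * (betti k L 2 : ℤ) :=
  betti_inequality h2 𝓛 hgr hBK n hcd

end Pool.Agent.Results.MP_7e1e73_al.BettiInequality
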